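import Mathlib
import Pool.Agent.Helper57.Comp5

set_option autoImplicit false
set_option maxHeartbeats 1000000

namespace Pool.Agent.Results.MP_19858b_an.GenericCompanion

open Filter Topology Metric ZeroAtInfty

/-- A norm on `X` equivalent to the given one. -/
structure EqNorm (X : Type) [NormedAddCommGroup X] [NormedSpace ℝ X] where
  /-- the underlying function -/
  toFun : X → ℝ
  add_le' : ∀ x y, toFun (x + y) ≤ toFun x + toFun y
  smul' : ∀ (a : ℝ) (x : X), toFun (a • x) = |a| * toFun x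
  equiv' : ∃ c C : ℝ, 0 < c ∧ ∀ x, c * ‖x‖ ≤ toFun x ∧ toFun x ≤ C * ‖x‖

instance (X : Type) [NormedAddCommGroup X] [NormedSpace ℝ X] :
    CoeFun (EqNorm X) (fun _ => X → ℝ) := ⟨EqNorm.toFun⟩

section basic
variable {X : Type} [NormedAddCommGroup X] [NormedSpace ℝ X]

theorem EqNorm.ext' {p q : EqNorm X} (h : ∀ x, p x = q x) : p = q := by
  obtain ⟨f, _, _, _⟩ := p
  obtain ⟨g, _, _, _⟩ := q
  have : f = g := funext h
  subst this
  rfl

theorem EqNorm.map_zero (p : EqNorm X) : p 0 = 0 := by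
  have := p.smul' 0 0
  rwa [zero_smul, abs_zero, zero_mul] at this

theorem EqNorm.map_neg (p : EqNorm X) (x : X) : p (-x) = p x := by
  have := p.smul' (-1) x
  rwa [neg_one_smul, abs_neg, abs_one, one_mul] at this

theorem EqNorm.nonneg (p : EqNorm X) (x : X) : 0 ≤ p x := by
  obtain ⟨c, C, hc, h⟩ := p.equiv'
  exact (mul_nonneg hc.le (norm_nonneg x)).trans (h x).1

omit [NormedSpace ℝ X] in
/-- bounded difference of two homogeneous functions on the unit ball -/
theorem bdd_diff (f g : X → ℝ) (hf : ∃ C : ℝ, ∀ x, |f x| ≤ C * ‖x‖)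
    (hg : ∃ C : ℝ, ∀ x, |g x| ≤ C * ‖x‖) :
    BddAbove (Set.range fun x : closedBall (0 : X) 1 => |f x - g x|) := by
  obtain ⟨C, hC⟩ := hf
  obtain ⟨D, hD⟩ := hg
  refine ⟨|C| + |D|, ?_⟩
  rintro _ ⟨x, rfl⟩
  have hx : ‖(x : X)‖ ≤ 1 := mem_closedBall_zero_iff.mp x.2
  have h1 : |f x| ≤ |C| := (hC x).trans (by
    have := le_abs_self C
    have h0 := norm_nonneg (x : X)
    have h2 := abs_nonneg C
    nlinarith)
  have h2 : |g x| ≤ |D| := (hD x).trans (by
    have := le_abs_self D
    have h0 := norm_nonneg (x : X)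
    have h2 := abs_nonneg D
    nlinarith)
  have : |f x - g x| ≤ |f x| + |g x| := abs_sub _ _
  linarith

theorem EqNorm.abs_bdd (p : EqNorm X) : ∃ C : ℝ, ∀ x, |p x| ≤ C * ‖x‖ := by
  obtain ⟨c, C, hc, h⟩ := p.equiv'
  exact ⟨C, fun x => by rw [abs_of_nonneg (p.nonneg x)]; exact (h x).2⟩

/-- The metric on the set of equivalent norms: `d(p, q) = sup_{‖x‖ ≤ 1} |p x - q x|`. -/
noncomputable instance (X : Type) [NormedAddCommGroup X] [NormedSpace ℝ X] :
    MetricSpace (EqNorm X) where
  dist p q := ⨆ x : closedBall (0 : X) 1, |p x - q x|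
  dist_self p := by simp
  dist_comm p q := by simp_rw [abs_sub_comm (p _) (q _)]
  dist_triangle p q r := by
    have : Nonempty (closedBall (0 : X) 1) := ⟨⟨0, by simp⟩⟩
    refine ciSup_le fun x => ?_
    have h1 := le_ciSup (bdd_diff p q p.abs_bdd q.abs_bdd) x
    have h2 := le_ciSup (bdd_diff q r q.abs_bdd r.abs_bdd) x
    exact (abs_sub_le _ (q x) _).trans (add_le_add h1 h2)
  eq_of_dist_eq_zero := by
    intro p q h
    have hb : ∀ x : closedBall (0 : X) 1, p x = q x := by
      intro x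
      have h1 := le_ciSup (bdd_diff p q p.abs_bdd q.abs_bdd) x
      have h2 : |p x - q x| ≤ 0 := h1.trans (le_of_eq h)
      exact sub_eq_zero.mp (abs_nonpos_iff.mp h2)
    refine EqNorm.ext' fun x => ?_
    rcases eq_or_ne x 0 with rfl | hx
    · rw [p.map_zero, q.map_zero]
    · have hx' : 0 < ‖x‖ := norm_pos_iff.mpr hx
      have h1 := hb ⟨‖x‖⁻¹ • x, by
        rw [mem_closedBall_zero_iff, norm_smul, norm_inv, norm_norm, inv_mul_cancel₀ hx'.ne']⟩
      simp only at h1
      rw [p.smul', q.smul'] at h1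
      exact mul_left_cancel₀ (abs_pos.mpr (inv_pos.mpr hx').ne').ne' h1

/-- `q` is a companion norm of `p`: the unit ball of `p` is antiproximinal for `q`, that is, no
point `x` outside the unit ball of `p` has a nearest point `y` in it with respect to `q`. -/
def IsCompanion (p q : EqNorm X) : Prop :=
  ∀ x : X, 1 < p x → ¬ ∃ y : X, p y ≤ 1 ∧ ∀ z : X, p z ≤ 1 → q (x - y) ≤ q (x - z)

end basic

/-- `C(X)`: the equivalent norms on `X` which admit a companion norm. -/
def Companionable (X : Type) [NormedAddCommGroup X] [NormedSpace ℝ X] : Set (EqNorm X) :=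
  {p | ∃ q : EqNorm X, IsCompanion p q}

section metric
variable {X : Type} [NormedAddCommGroup X] [NormedSpace ℝ X]

theorem dist_def (p q : EqNorm X) : dist p q = ⨆ x : closedBall (0 : X) 1, |p x - q x| := rfl

theorem abs_sub_le_dist (p q : EqNorm X) (x : X) : |p x - q x| ≤ dist p q * ‖x‖ := by
  rcases eq_or_ne x 0 with rfl | hx
  · rw [p.map_zero, q.map_zero]; simp
  · have hx' : 0 < ‖x‖ := norm_pos_iff.mpr hx
    have h1 := le_ciSup (bdd_diff p q p.abs_bdd q.abs_bdd) ⟨‖x‖⁻¹ • x, by
        rw [mem_closedBall_zero_iff, norm_smul, norm_inv, norm_norm, inv_mul_cancel₀ hx'.ne']⟩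
    simp only at h1
    rw [p.smul', q.smul', ← mul_sub, abs_mul, abs_abs, abs_of_pos (inv_pos.mpr hx'),
      inv_mul_le_iff₀ hx', mul_comm] at h1
    exact h1

theorem dist_le_of (p q : EqNorm X) (r : ℝ) (h : ∀ x, ‖x‖ ≤ 1 → |p x - q x| ≤ r) :
    dist p q ≤ r := by
  have : Nonempty (closedBall (0 : X) 1) := ⟨⟨0, by simp⟩⟩
  exact ciSup_le fun x => h x (mem_closedBall_zero_iff.mp x.2)

/-- A continuous seminorm. -/
structure SN (X : Type) [NormedAddCommGroup X] [NormedSpace ℝ X] where
  toFun : X → ℝ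
  add_le' : ∀ x y, toFun (x + y) ≤ toFun x + toFun y
  smul' : ∀ (a : ℝ) (x : X), toFun (a • x) = |a| * toFun x
  nonneg' : ∀ x, 0 ≤ toFun x
  bdd' : ∃ C : ℝ, ∀ x, toFun x ≤ C * ‖x‖

instance : CoeFun (SN X) (fun _ => X → ℝ) := ⟨SN.toFun⟩

theorem SN.ext' {p q : SN X} (h : ∀ x, p x = q x) : p = q := by
  obtain ⟨f, _, _, _, _⟩ := p
  obtain ⟨g, _, _, _, _⟩ := q
  have : f = g := funext h
  subst this
  rfl

theorem SN.map_zero (p : SN X) : p 0 = 0 := by
  have := p.smul' 0 0
  rwa [zero_smul, abs_zero, zero_mul] at this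

theorem SN.abs_bdd (p : SN X) : ∃ C : ℝ, ∀ x, |p x| ≤ C * ‖x‖ := by
  obtain ⟨C, h⟩ := p.bdd'
  exact ⟨C, fun x => by rw [abs_of_nonneg (p.nonneg' x)]; exact h x⟩

noncomputable instance : MetricSpace (SN X) where
  dist p q := ⨆ x : closedBall (0 : X) 1, |p x - q x|
  dist_self p := by simp
  dist_comm p q := by simp_rw [abs_sub_comm (p _) (q _)]
  dist_triangle p q r := by
    have : Nonempty (closedBall (0 : X) 1) := ⟨⟨0, by simp⟩⟩
    refine ciSup_le fun x => ?_
    have h1 := le_ciSup (bdd_diff p q p.abs_bdd q.abs_bdd) x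
    have h2 := le_ciSup (bdd_diff q r q.abs_bdd r.abs_bdd) x
    exact (abs_sub_le _ (q x) _).trans (add_le_add h1 h2)
  eq_of_dist_eq_zero := by
    intro p q h
    have hb : ∀ x : closedBall (0 : X) 1, p x = q x := by
      intro x
      have h1 := le_ciSup (bdd_diff p q p.abs_bdd q.abs_bdd) x
      have h2 : |p x - q x| ≤ 0 := h1.trans (le_of_eq h)
      exact sub_eq_zero.mp (abs_nonpos_iff.mp h2)
    refine SN.ext' fun x => ?_
    rcases eq_or_ne x 0 with rfl | hx
    · rw [p.map_zero, q.map_zero]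
    · have hx' : 0 < ‖x‖ := norm_pos_iff.mpr hx
      have h1 := hb ⟨‖x‖⁻¹ • x, by
        rw [mem_closedBall_zero_iff, norm_smul, norm_inv, norm_norm, inv_mul_cancel₀ hx'.ne']⟩
      simp only at h1
      rw [p.smul', q.smul'] at h1
      exact mul_left_cancel₀ (abs_pos.mpr (inv_pos.mpr hx').ne').ne' h1

theorem SN.abs_sub_le_dist (p q : SN X) (x : X) : |p x - q x| ≤ dist p q * ‖x‖ := by
  rcases eq_or_ne x 0 with rfl | hx
  · rw [p.map_zero, q.map_zero]; simp
  · have hx' : 0 < ‖x‖ := norm_pos_iff.mpr hx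
    have h1 := le_ciSup (bdd_diff p q p.abs_bdd q.abs_bdd) ⟨‖x‖⁻¹ • x, by
        rw [mem_closedBall_zero_iff, norm_smul, norm_inv, norm_norm, inv_mul_cancel₀ hx'.ne']⟩
    simp only at h1
    rw [p.smul', q.smul', ← mul_sub, abs_mul, abs_abs, abs_of_pos (inv_pos.mpr hx'),
      inv_mul_le_iff₀ hx', mul_comm] at h1
    exact h1

instance : CompleteSpace (SN X) := by
  refine Metric.complete_of_cauchySeq_tendsto fun s hs => ?_
  have hpt : ∀ x, CauchySeq (fun n => s n x) := by
    intro x
    rw [Metric.cauchySeq_iff'] at hs ⊢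
    intro ε hε
    obtain ⟨N, hN⟩ := hs (ε / (‖x‖ + 1)) (by positivity)
    refine ⟨N, fun n hn => ?_⟩
    rw [Real.dist_eq]
    refine ((s n).abs_sub_le_dist (s N) x).trans_lt ?_
    have h1 := hN n hn
    have h2 : dist (s n) (s N) * ‖x‖ ≤ ε / (‖x‖ + 1) * ‖x‖ :=
      mul_le_mul_of_nonneg_right h1.le (norm_nonneg _)
    refine h2.trans_lt ?_
    rw [div_mul_eq_mul_div, div_lt_iff₀ (by positivity)]
    nlinarith
  choose f hf using fun x => cauchySeq_tendsto_of_complete (hpt x)
  have hnn : ∀ x, 0 ≤ f x := fun x => ge_of_tendsto' (hf x) fun n => (s n).nonneg' x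
  have hclose : ∀ ε : ℝ, 0 < ε → ∃ N, ∀ n ≥ N, ∀ x, |s n x - f x| ≤ ε * ‖x‖ := by
    intro ε hε
    rw [Metric.cauchySeq_iff] at hs
    obtain ⟨N, hN⟩ := hs ε hε
    refine ⟨N, fun n hn x => ?_⟩
    have h1 : Tendsto (fun m => |s n x - s m x|) atTop (𝓝 |s n x - f x|) :=
      ((hf x).const_sub (s n x)).abs
    refine le_of_tendsto h1 ?_
    filter_upwards [eventually_ge_atTop N] with m hm
    exact ((s n).abs_sub_le_dist (s m) x).trans
      (mul_le_mul_of_nonneg_right (hN n hn m hm).le (norm_nonneg _))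
  let P : SN X :=
    { toFun := f
      add_le' := fun x y => le_of_tendsto_of_tendsto' (hf (x + y)) ((hf x).add (hf y))
        fun n => (s n).add_le' x y
      smul' := fun a x => by
        have h1 := hf (a • x)
        have h2 : Tendsto (fun n => s n (a • x)) atTop (𝓝 (|a| * f x)) := by
          simp_rw [(s _).smul']
          exact (hf x).const_mul _
        exact tendsto_nhds_unique h1 h2
      nonneg' := hnn
      bdd' := by
        obtain ⟨N, hN⟩ := hclose 1 one_pos
        obtain ⟨C, hC⟩ := (s N).bdd'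
        refine ⟨C + 1, fun x => ?_⟩
        have h1 := hN N le_rfl x
        have h2 := hC x
        have h3 := (abs_le.mp h1).1
        linarith }
  refine ⟨P, ?_⟩
  rw [Metric.tendsto_atTop]
  intro ε hε
  obtain ⟨N, hN⟩ := hclose (ε / 2) (by linarith)
  refine ⟨N, fun n hn => ?_⟩
  have : Nonempty (closedBall (0 : X) 1) := ⟨⟨0, by simp⟩⟩
  have h1 : dist (s n) P ≤ ε / 2 := by
    refine ciSup_le fun x => ?_
    have hx : ‖(x : X)‖ ≤ 1 := mem_closedBall_zero_iff.mp x.2
    refine (hN n hn x).trans ?_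
    have := norm_nonneg (x : X)
    nlinarith
  linarith

/-- inclusion of the norms into the seminorms -/
def toSN (p : EqNorm X) : SN X :=
  { toFun := p
    add_le' := p.add_le'
    smul' := p.smul'
    nonneg' := p.nonneg
    bdd' := by
      obtain ⟨c, C, hc, h⟩ := p.equiv'
      exact ⟨C, fun x => (h x).2⟩ }

theorem toSN_isometry : Isometry (toSN : EqNorm X → SN X) :=
  Isometry.of_dist_eq fun _ _ => rfl

theorem toSN_openEmb : IsOpenEmbedding (toSN : EqNorm X → SN X) := by
  refine ⟨toSN_isometry.isEmbedding, ?_⟩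
  rw [Metric.isOpen_iff]
  rintro _ ⟨p, rfl⟩
  obtain ⟨c, C, hc, h⟩ := p.equiv'
  refine ⟨c / 2, by linarith, fun t ht => ?_⟩
  obtain ⟨D, hD⟩ := t.bdd'
  refine ⟨⟨t, t.add_le', t.smul', c / 2, D, by linarith, fun x => ⟨?_, hD x⟩⟩, rfl⟩
  have h1 := t.abs_sub_le_dist (toSN p) x
  have h2 : dist t (toSN p) * ‖x‖ ≤ c / 2 * ‖x‖ :=
    mul_le_mul_of_nonneg_right (mem_ball.mp ht).le (norm_nonneg _)
  have h3 := (abs_le.mp h1).1
  have h4 : toSN p x = p x := rfl
  rw [h4] at h3
  have h5 := (h x).1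
  linarith

instance : BaireSpace (EqNorm X) := toSN_openEmb.baireSpace

end metric

section generic
open Pool.Agent.Helper57.Comp

/-- flatness at infinity of the unit ball of `p`, with constant `κ` -/
def FlatAt (κ : ℝ) (p : EqNorm c0) : Prop :=
  ∃ δ : ℝ, 0 < δ ∧ ∀ x : c0, p x ≤ 1 → ∃ m : ℕ, ∀ u : c0, ‖u‖ ≤ 1 → (∀ l < m, u l = 0) →
    p (x + δ • u) ≤ 1 + κ * δ

/-- the regularised norm: gauge of the sum of the unit ball of `p` and a small ball -/
noncomputable def reg (p : EqNorm c0) (δ : ℝ) (x : c0) : ℝ :=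
  ⨅ z : c0, max (p (x - z)) (‖z‖ / δ)

theorem reg_bdd (p : EqNorm c0) (δ : ℝ) (x : c0) :
    BddBelow (Set.range fun z : c0 => max (p (x - z)) (‖z‖ / δ)) :=
  ⟨0, by rintro _ ⟨z, rfl⟩; exact (p.nonneg _).trans (le_max_left _ _)⟩

theorem reg_le (p : EqNorm c0) (δ : ℝ) (x z : c0) : reg p δ x ≤ max (p (x - z)) (‖z‖ / δ) :=
  ciInf_le (reg_bdd p δ x) z

theorem exists_lt_reg (p : EqNorm c0) (δ : ℝ) (x : c0) (ε : ℝ) (hε : 0 < ε) :
    ∃ z : c0, max (p (x - z)) (‖z‖ / δ) < reg p δ x + ε :=
  exists_lt_of_ciInf_lt (by unfold reg; linarith)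

theorem le_reg (p : EqNorm c0) (δ : ℝ) (x : c0) (t : ℝ)
    (h : ∀ z, t ≤ max (p (x - z)) (‖z‖ / δ)) : t ≤ reg p δ x := le_ciInf h

theorem reg_smul_le (p : EqNorm c0) (δ : ℝ) (a : ℝ) (x : c0) :
    reg p δ (a • x) ≤ |a| * reg p δ x := by
  refine le_of_forall_pos_le_add fun ε hε => ?_
  obtain ⟨z, hz⟩ := exists_lt_reg p δ x (ε / (|a| + 1)) (by positivity)
  refine (reg_le p δ (a • x) (a • z)).trans ?_
  have e0 : a • x - a • z = a • (x - z) := (smul_sub a x z).symm
  have e1 : p (a • x - a • z) = |a| * p (x - z) := by rw [e0, p.smul']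
  have e2 : ‖a • z‖ / δ = |a| * (‖z‖ / δ) := by rw [norm_smul, Real.norm_eq_abs]; ring
  rw [e1, e2, ← mul_max_of_nonneg _ _ (abs_nonneg a)]
  have h1 : |a| * max (p (x - z)) (‖z‖ / δ) ≤ |a| * (reg p δ x + ε / (|a| + 1)) :=
    mul_le_mul_of_nonneg_left hz.le (abs_nonneg a)
  have h2 : |a| * (ε / (|a| + 1)) ≤ ε := by
    rw [mul_div_assoc', div_le_iff₀ (by positivity)]
    nlinarith [abs_nonneg a]
  linarith [mul_add |a| (reg p δ x) (ε / (|a| + 1))]

/-- the regularised norm as an equivalent norm -/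
noncomputable def regN (p : EqNorm c0) (C : ℝ) (hC : ∀ x, p x ≤ C * ‖x‖) (hC0 : 0 ≤ C)
    (δ : ℝ) (hδ : 0 < δ) : EqNorm c0 where
  toFun := reg p δ
  add_le' x y := by
    refine le_of_forall_pos_le_add fun ε hε => ?_
    obtain ⟨z, hz⟩ := exists_lt_reg p δ x (ε / 2) (by linarith)
    obtain ⟨w, hw⟩ := exists_lt_reg p δ y (ε / 2) (by linarith)
    refine (reg_le p δ (x + y) (z + w)).trans ?_
    have h1 : p (x + y - (z + w)) ≤ p (x - z) + p (y - w) := by
      have : x + y - (z + w) = (x - z) + (y - w) := by abel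
      rw [this]; exact p.add_le' _ _
    have h2 : ‖z + w‖ / δ ≤ ‖z‖ / δ + ‖w‖ / δ := by
      rw [← add_div]; exact div_le_div_of_nonneg_right (norm_add_le _ _) hδ.le
    have h3 := le_max_left (p (x - z)) (‖z‖ / δ)
    have h4 := le_max_right (p (x - z)) (‖z‖ / δ)
    have h5 := le_max_left (p (y - w)) (‖w‖ / δ)
    have h6 := le_max_right (p (y - w)) (‖w‖ / δ)
    refine max_le ?_ ?_ <;> linarith
  smul' a x := by
    refine le_antisymm (reg_smul_le p δ a x) ?_
    rcases eq_or_ne a 0 with rfl | ha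
    · rw [abs_zero, zero_mul]
      exact le_reg _ _ _ _ fun z => (p.nonneg _).trans (le_max_left _ _)
    · have h1 := reg_smul_le p δ a⁻¹ (a • x)
      rw [smul_smul, inv_mul_cancel₀ ha, one_smul] at h1
      have ha' : 0 < |a| := abs_pos.mpr ha
      rw [abs_inv] at h1
      calc |a| * reg p δ x ≤ |a| * (|a|⁻¹ * reg p δ (a • x)) :=
            mul_le_mul_of_nonneg_left h1 ha'.le
        _ = reg p δ (a • x) := by rw [← mul_assoc, mul_inv_cancel₀ ha'.ne', one_mul]
  equiv' := by
    obtain ⟨c, D, hc, h⟩ := p.equiv'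
    refine ⟨c / (1 + C * δ), C, by positivity, fun x => ⟨?_, ?_⟩⟩
    · refine le_reg _ _ _ _ fun z => ?_
      have h1 : p x ≤ p (x - z) + p z := by
        have := p.add_le' (x - z) z
        rwa [sub_add_cancel] at this
      have h2 := hC z
      set t := max (p (x - z)) (‖z‖ / δ) with ht
      have h3 : p (x - z) ≤ t := le_max_left _ _
      have h4 : ‖z‖ ≤ δ * t := by
        have : ‖z‖ / δ ≤ t := le_max_right _ _
        rwa [div_le_iff₀ hδ, mul_comm] at this
      have h5 : C * ‖z‖ ≤ C * (δ * t) := mul_le_mul_of_nonneg_left h4 hC0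
      rw [div_mul_eq_mul_div, div_le_iff₀ (by positivity)]
      have h6 := (h x).1
      nlinarith
    · refine (reg_le p δ x 0).trans ?_
      rw [sub_zero, norm_zero, zero_div]
      exact max_le (hC x) (mul_nonneg hC0 (norm_nonneg _))

theorem regN_apply (p : EqNorm c0) (C : ℝ) (hC : ∀ x, p x ≤ C * ‖x‖) (hC0 : 0 ≤ C)
    (δ : ℝ) (hδ : 0 < δ) (x : c0) : regN p C hC hC0 δ hδ x = reg p δ x := rfl

theorem regN_dist (p : EqNorm c0) (C : ℝ) (hC : ∀ x, p x ≤ C * ‖x‖) (hC0 : 0 ≤ C)
    (δ : ℝ) (hδ : 0 < δ) : dist (regN p C hC hC0 δ hδ) p ≤ C * C * δ := by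
  refine dist_le_of _ _ _ fun x hx => ?_
  rw [regN_apply]
  have h1 : reg p δ x ≤ p x := by
    refine (reg_le p δ x 0).trans ?_
    rw [sub_zero, norm_zero, zero_div]
    exact max_le le_rfl (p.nonneg x)
  have h2 : p x ≤ (1 + C * δ) * reg p δ x := by
    have h3 : p x / (1 + C * δ) ≤ reg p δ x := by
      refine le_reg _ _ _ _ fun z => ?_
      have h1 : p x ≤ p (x - z) + p z := by
        have := p.add_le' (x - z) z
        rwa [sub_add_cancel] at this
      have h2 := hC z
      set t := max (p (x - z)) (‖z‖ / δ) with ht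
      have h3 : p (x - z) ≤ t := le_max_left _ _
      have h4 : ‖z‖ ≤ δ * t := by
        have : ‖z‖ / δ ≤ t := le_max_right _ _
        rwa [div_le_iff₀ hδ, mul_comm] at this
      have h5 : C * ‖z‖ ≤ C * (δ * t) := mul_le_mul_of_nonneg_left h4 hC0
      rw [div_le_iff₀ (by positivity)]
      nlinarith
    rw [div_le_iff₀ (by positivity)] at h3
    linarith
  have h3 : reg p δ x ≤ C := by
    refine h1.trans ((hC x).trans ?_)
    nlinarith
  rw [abs_le]
  constructor
  · have : C * δ * reg p δ x ≤ C * δ * C := mul_le_mul_of_nonneg_left h3 (by positivity)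
    nlinarith
  · have : 0 ≤ C * C * δ := by positivity
    linarith

/-- the regularised norm is flat at infinity for each constant -/
theorem regN_flat (p : EqNorm c0) (C : ℝ) (hC : ∀ x, p x ≤ C * ‖x‖) (hC0 : 0 ≤ C)
    (δ : ℝ) (hδ : 0 < δ) (κ : ℝ) (hκ : 0 < κ) (x : c0) (hx : regN p C hC hC0 δ hδ x ≤ 1) :
    ∃ m : ℕ, ∀ u : c0, ‖u‖ ≤ 1 → (∀ l < m, u l = 0) →
      regN p C hC hC0 δ hδ (x + δ • u) ≤ 1 + κ * δ := by
  rw [regN_apply] at hx
  obtain ⟨z, hz⟩ := exists_lt_reg p δ x (κ * δ / 2) (by positivity)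
  set η : ℝ := κ * δ / (2 * (C + 1)) with hη
  have hη0 : 0 < η := by positivity
  obtain ⟨m, hm⟩ : ∃ m : ℕ, ∀ l, m ≤ l → |z l| ≤ η := by
    have h1 := (c0_tendsto z).abs
    rw [abs_zero] at h1
    obtain ⟨m, hm⟩ := eventually_atTop.mp (h1.eventually (gt_mem_nhds hη0))
    exact ⟨m, fun l hl => (hm l hl).le⟩
  refine ⟨m, fun u hu hu0 => ?_⟩
  rw [regN_apply]
  set w : c0 := trunc (fun l => z l) m with hw
  have hwz : ‖z - w‖ ≤ η := by
    refine c0_norm_le _ _ hη0.le fun l => ?_
    have e : (z - w) l = z l - w l := rfl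
    rw [e, hw, trunc_apply]
    split_ifs with hl
    · rw [sub_self, abs_zero]; exact hη0.le
    · rw [sub_zero]; exact hm l (not_lt.mp hl)
  have hz1 : ‖z‖ ≤ δ * (1 + κ * δ / 2) := by
    have h1 : ‖z‖ / δ ≤ 1 + κ * δ / 2 := (le_max_right (p (x - z)) _).trans (by linarith)
    rwa [div_le_iff₀ hδ, mul_comm] at h1
  have hn : ‖w + δ • u‖ ≤ δ * (1 + κ * δ / 2) := by
    refine c0_norm_le _ _ (by positivity) fun l => ?_
    have e : (w + δ • u) l = w l + δ * u l := rfl
    rw [e, hw, trunc_apply]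
    split_ifs with hl
    · rw [hu0 l hl, mul_zero, add_zero]
      exact (c0_abs_le z l).trans hz1
    · rw [zero_add, abs_mul, abs_of_pos hδ]
      refine mul_le_mul_of_nonneg_left ?_ hδ.le
      have := (c0_abs_le u l).trans hu
      have h2 : 0 < κ * δ / 2 := by positivity
      linarith
  refine (reg_le p δ (x + δ • u) (w + δ • u)).trans (max_le ?_ ?_)
  · have e : x + δ • u - (w + δ • u) = (x - z) + (z - w) := by abel
    rw [e]
    refine (p.add_le' _ _).trans ?_
    have h1 : p (x - z) ≤ 1 + κ * δ / 2 := (le_max_left _ (‖z‖ / δ)).trans (by linarith)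
    have h2 : p (z - w) ≤ C * η := (hC _).trans (mul_le_mul_of_nonneg_left hwz hC0)
    have h3 : C * η ≤ κ * δ / 2 := by
      rw [hη, mul_div_assoc', div_le_iff₀ (by positivity)]
      have : 0 < κ * δ := by positivity
      nlinarith
    linarith
  · rw [div_le_iff₀ hδ]
    refine hn.trans ?_
    have : 0 < κ * δ := by positivity
    nlinarith

theorem dense_interior_flat (κ : ℝ) (hκ : 0 < κ) : Dense (interior {p | FlatAt κ p}) := by
  intro p
  rw [Metric.mem_closure_iff]
  intro ε hε
  obtain ⟨c, C, hc, hcC⟩ := p.equiv'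
  set C' : ℝ := |C| with hC'
  have hC0 : 0 ≤ C' := abs_nonneg C
  have hC : ∀ x, p x ≤ C' * ‖x‖ := fun x => (hcC x).2.trans
    (mul_le_mul_of_nonneg_right (le_abs_self C) (norm_nonneg _))
  set δ : ℝ := ε / (2 * (C' * C' + 1)) with hδ
  have hδ0 : 0 < δ := by positivity
  refine ⟨regN p C' hC hC0 δ hδ0, ?_, ?_⟩
  · rw [mem_interior]
    set P : EqNorm c0 := regN p C' hC hC0 δ hδ0 with hP
    obtain ⟨c', D, hc', hP2⟩ := P.equiv'
    set η : ℝ := min (c' / 2) (κ * δ / (2 * (4 / c' + δ))) with hη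
    have hη0 : 0 < η := by
      rw [hη]
      refine lt_min (by linarith) (by positivity)
    refine ⟨ball P η, ?_, isOpen_ball, mem_ball_self hη0⟩
    intro q hq
    refine ⟨δ, hδ0, fun x hx => ?_⟩
    have hd : ∀ y, |q y - P y| ≤ η * ‖y‖ := fun y =>
      (abs_sub_le_dist q P y).trans (mul_le_mul_of_nonneg_right (mem_ball.mp hq).le
        (norm_nonneg _))
    have hηc : η ≤ c' / 2 := min_le_left _ _
    have hηd : η * (4 / c' + δ) ≤ κ * δ / 2 := by
      have h1 : η ≤ κ * δ / (2 * (4 / c' + δ)) := min_le_right _ _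
      have h2 : 0 < 4 / c' + δ := by positivity
      calc η * (4 / c' + δ) ≤ κ * δ / (2 * (4 / c' + δ)) * (4 / c' + δ) :=
            mul_le_mul_of_nonneg_right h1 h2.le
        _ = κ * δ / 2 := by field_simp
    have h1 : P x ≤ 1 + η * ‖x‖ := by
      have := (abs_le.mp (hd x)).1
      linarith
    have h2 : c' * ‖x‖ ≤ P x := (hP2 x).1
    have h3 : ‖x‖ ≤ 2 / c' := by
      rw [le_div_iff₀ hc']
      nlinarith [norm_nonneg x]
    have h4 : P x ≤ 1 + 2 * η / c' := by
      have : η * ‖x‖ ≤ η * (2 / c') := mul_le_mul_of_nonneg_left h3 hη0.le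
      have e : η * (2 / c') = 2 * η / c' := by ring
      linarith
    set ρ : ℝ := 1 + 2 * η / c' with hρ
    have hρ1 : 1 ≤ ρ := by
      have : 0 < 2 * η / c' := by positivity
      rw [hρ]; linarith
    have hρ0 : 0 < ρ := by linarith
    have hPx' : P (ρ⁻¹ • x) ≤ 1 := by
      rw [P.smul', abs_of_pos (inv_pos.mpr hρ0), inv_mul_le_iff₀ hρ0, mul_one]
      exact h4
    obtain ⟨m, hm⟩ := regN_flat p C' hC hC0 δ hδ0 (κ / 2) (by linarith) (ρ⁻¹ • x) hPx'
    refine ⟨m, fun u hu hu0 => ?_⟩
    have h5 := hm u hu hu0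
    have h6 : P (x + δ • u) ≤ P (ρ⁻¹ • x + δ • u) + P (x - ρ⁻¹ • x) := by
      have := P.add_le' (ρ⁻¹ • x + δ • u) (x - ρ⁻¹ • x)
      have e : ρ⁻¹ • x + δ • u + (x - ρ⁻¹ • x) = x + δ • u := by abel
      rwa [e] at this
    have h7 : P (x - ρ⁻¹ • x) ≤ ρ - 1 := by
      have e : x - ρ⁻¹ • x = (1 - ρ⁻¹) • x := by
        have := sub_smul (1 : ℝ) ρ⁻¹ x
        rw [this, one_smul]
      have h8 : 0 ≤ 1 - ρ⁻¹ := by
        have := inv_le_one_of_one_le₀ hρ1
        linarith
      rw [e, P.smul', abs_of_nonneg h8]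
      calc (1 - ρ⁻¹) * P x ≤ (1 - ρ⁻¹) * ρ := mul_le_mul_of_nonneg_left h4 h8
        _ = ρ - 1 := by rw [sub_mul, one_mul, inv_mul_cancel₀ hρ0.ne']
    have h8 : q (x + δ • u) ≤ P (x + δ • u) + η * ‖x + δ • u‖ := by
      have := (abs_le.mp (hd (x + δ • u))).2
      linarith
    have h9 : ‖x + δ • u‖ ≤ 2 / c' + δ := by
      refine (norm_add_le _ _).trans ?_
      rw [norm_smul, Real.norm_eq_abs, abs_of_pos hδ0]
      have : δ * ‖u‖ ≤ δ * 1 := mul_le_mul_of_nonneg_left hu hδ0.le
      linarith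
    have h10 : η * ‖x + δ • u‖ ≤ η * (2 / c' + δ) := mul_le_mul_of_nonneg_left h9 hη0.le
    have h11 : P (ρ⁻¹ • x + δ • u) ≤ 1 + κ / 2 * δ := h5
    have h12 : ρ - 1 = η * (2 / c') := by rw [hρ]; ring
    have h13 : η * (4 / c' + δ) = η * (2 / c') + η * (2 / c' + δ) := by ring
    linarith
  · rw [dist_comm]
    refine (regN_dist p C' hC hC0 δ hδ0).trans_lt ?_
    rw [hδ, mul_div_assoc', div_lt_iff₀ (by positivity)]
    nlinarith [mul_nonneg hC0 hC0]

/-- `c₀` with the norm `p` -/
def W (_p : EqNorm c0) : Type := c0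

instance (p : EqNorm c0) : AddCommGroup (W p) := inferInstanceAs (AddCommGroup c0)
instance (p : EqNorm c0) : Module ℝ (W p) := inferInstanceAs (Module ℝ c0)

/-- identity map -/
def toW (p : EqNorm c0) : c0 ≃ₗ[ℝ] W p := LinearEquiv.refl ℝ c0

noncomputable instance (p : EqNorm c0) : NormedAddCommGroup (W p) :=
  AddGroupNorm.toNormedAddCommGroup
    { toFun := fun x => p ((toW p).symm x)
      map_zero' := by rw [_root_.map_zero]; exact p.map_zero
      add_le' := fun x y => by rw [map_add]; exact p.add_le' _ _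
      neg' := fun x => by rw [_root_.map_neg]; exact p.map_neg _
      eq_zero_of_map_eq_zero' := fun x hx => by
        obtain ⟨c, C, hc, h⟩ := p.equiv'
        have h1 := (h ((toW p).symm x)).1
        rw [hx] at h1
        have h2 : ‖(toW p).symm x‖ ≤ 0 := by
          by_contra h3
          push Not at h3
          nlinarith
        have h4 := norm_le_zero_iff.mp h2
        exact (LinearEquiv.map_eq_zero_iff (toW p).symm).mp h4 }

theorem W_norm (p : EqNorm c0) (x : W p) : ‖x‖ = p ((toW p).symm x) := rfl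

noncomputable instance (p : EqNorm c0) : NormedSpace ℝ (W p) where
  norm_smul_le a x := by
    rw [W_norm, W_norm, map_smul, p.smul', Real.norm_eq_abs]

theorem W_norm_toW (p : EqNorm c0) (x : c0) : ‖toW p x‖ = p x := by
  rw [W_norm, LinearEquiv.symm_apply_apply]

theorem companion_of_flat (p : EqNorm c0) (hp : ∀ κ : ℝ, 0 < κ → FlatAt κ p) :
    ∃ q : EqNorm c0, IsCompanion p q := by
  obtain ⟨c, C, hc, hcC⟩ := p.equiv'
  have hA : ∀ x : W p, ‖(toW p).symm x‖ ≤ c⁻¹ * ‖x‖ := by
    intro x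
    rw [W_norm, ← div_eq_inv_mul, le_div_iff₀ hc, mul_comm]
    exact (hcC _).1
  have hflat : Flat (toW p).symm := by
    intro κ hκ
    obtain ⟨δ, hδ, h⟩ := hp κ hκ
    refine ⟨δ, hδ, fun x hx => ?_⟩
    obtain ⟨m, hm⟩ := h ((toW p).symm x) hx
    refine ⟨m, fun u hu hu0 => ?_⟩
    have := hm u hu hu0
    rw [W_norm, map_add, map_smul, LinearEquiv.symm_symm, LinearEquiv.symm_apply_apply]
    exact this
  obtain ⟨g, hg1, hg2⟩ := static_aux (toW p).symm c⁻¹ hA (by positivity) hflat
  -- the functionals on c0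
  set f : ℕ → c0 → ℝ := fun i x => g i (toW p x) with hf
  have hf_add : ∀ i x y, f i (x + y) = f i x + f i y := fun i x y => by
    simp only [hf]; rw [map_add, map_add]
  have hf_smul : ∀ i (a : ℝ) x, f i (a • x) = a * f i x := fun i a x => by
    simp only [hf]; rw [map_smul, map_smul, smul_eq_mul]
  have hf1 : ∀ i x, |f i x - x i| ≤ th (i + 1) * ‖x‖ := by
    intro i x
    have := hg1 i (toW p x)
    rw [LinearEquiv.symm_apply_apply] at this
    exact this
  have hth1 : ∀ i, th (i + 1) ≤ 1 / 4 := by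
    intro i
    unfold th
    calc (1 / 2 : ℝ) ^ (i + 1 + 1) ≤ (1 / 2 : ℝ) ^ 2 :=
          pow_le_pow_of_le_one (by norm_num) (by norm_num) (by omega)
      _ = 1 / 4 := by norm_num
  have hf2 : ∀ i x, |f i x| ≤ 5 / 4 * ‖x‖ := by
    intro i x
    have h1 := hf1 i x
    have h2 := c0_abs_le x i
    have h3 : th (i + 1) * ‖x‖ ≤ 1 / 4 * ‖x‖ := mul_le_mul_of_nonneg_right (hth1 i)
      (norm_nonneg _)
    have h4 : |f i x| ≤ |f i x - x i| + |x i| := by
      have := abs_add_le (f i x - x i) (x i)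
      rwa [sub_add_cancel] at this
    linarith
  have hbdd : ∀ x, BddAbove (Set.range fun i => |f i x|) := fun x =>
    ⟨5 / 4 * ‖x‖, by rintro _ ⟨i, rfl⟩; exact hf2 i x⟩
  have hle : ∀ x i, |f i x| ≤ ⨆ j, |f j x| := fun x i => le_ciSup (hbdd x) i
  let q : EqNorm c0 :=
    { toFun := fun x => ⨆ i, |f i x|
      add_le' := fun x y => ciSup_le fun i => by
        rw [hf_add]
        exact (abs_add_le _ _).trans (add_le_add (hle x i) (hle y i))
      smul' := fun a x => by
        simp_rw [hf_smul, abs_mul]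
        exact (Real.mul_iSup_of_nonneg (abs_nonneg a) _).symm
      equiv' := by
        refine ⟨3 / 4, 5 / 4, by norm_num, fun x => ⟨?_, ciSup_le fun i => hf2 i x⟩⟩
        have h1 : ‖x‖ ≤ (⨆ i, |f i x|) + 1 / 4 * ‖x‖ := by
          refine c0_norm_le _ _ ?_ fun l => ?_
          · have := (abs_nonneg _).trans (hle x 0)
            positivity
          · have h1 := hf1 l x
            have h3 : th (l + 1) * ‖x‖ ≤ 1 / 4 * ‖x‖ := mul_le_mul_of_nonneg_right (hth1 l)
              (norm_nonneg _)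
            have h4 : |x l| ≤ |f l x - x l| + |f l x| := by
              have h5 := abs_add_le (x l - f l x) (f l x)
              rw [sub_add_cancel, abs_sub_comm] at h5
              exact h5
            have h5 := hle x l
            linarith
        linarith }
  have hq : ∀ x, q x = ⨆ i, |f i x| := fun _ => rfl
  have hqle : ∀ x i, |f i x| ≤ q x := fun x i => hle x i
  refine ⟨q, ?_⟩
  rintro x hx ⟨y, hy, hmin⟩
  set r : ℝ := q (x - y) with hr
  have hr0 : 0 < r := by
    rw [hr]
    rcases lt_or_eq_of_le (q.nonneg (x - y)) with h | h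
    · exact h
    · exfalso
      obtain ⟨c1, C1, hc1, h1⟩ := q.equiv'
      have h2 := (h1 (x - y)).1
      rw [← h] at h2
      have h3 : ‖x - y‖ ≤ 0 := by
        by_contra h3
        push Not at h3
        nlinarith
      have h4 : x = y := sub_eq_zero.mp (norm_le_zero_iff.mp h3)
      rw [h4] at hx
      linarith
  have hqcont : Continuous (q : c0 → ℝ) := by
    obtain ⟨c1, C1, hc1, h1⟩ := q.equiv'
    have : LipschitzWith (Real.toNNReal |C1|) (q : c0 → ℝ) := by
      refine LipschitzWith.of_dist_le_mul fun a b => ?_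
      rw [Real.coe_toNNReal _ (abs_nonneg _), Real.dist_eq, dist_eq_norm]
      have h2 : q a ≤ q b + q (a - b) := by
        have := q.add_le' b (a - b)
        rwa [add_sub_cancel] at this
      have h3 : q b ≤ q a + q (a - b) := by
        have := q.add_le' a (b - a)
        rw [add_sub_cancel] at this
        have e : q (b - a) = q (a - b) := by rw [← q.map_neg (a - b), neg_sub]
        linarith
      have h4 : q (a - b) ≤ |C1| * ‖a - b‖ := (h1 _).2.trans
        (mul_le_mul_of_nonneg_right (le_abs_self _) (norm_nonneg _))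
      rw [abs_le]
      constructor <;> linarith
    exact this.continuous
  set O : Set c0 := {z | q (z - x) < r} with hO
  have hOopen : IsOpen O :=
    isOpen_lt (hqcont.comp (continuous_id.sub continuous_const)) continuous_const
  have hconvq : ∀ (P : EqNorm c0) (v : c0) (a b : ℝ) (z w : c0), 0 ≤ a → 0 ≤ b → a + b = 1 →
      P (a • z + b • w - v) ≤ a * P (z - v) + b * P (w - v) := by
    intro P v a b z w ha hb hab
    have e : a • z + b • w - v = a • (z - v) + b • (w - v) := by
      have h1 : v = a • v + b • v := by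
        have := add_smul a b v
        rw [← this, hab, one_smul]
      have h2 := smul_sub a z v
      have h3 := smul_sub b w v
      rw [h2, h3]
      nth_rewrite 1 [h1]
      abel
    rw [e]
    refine (P.add_le' _ _).trans ?_
    rw [P.smul', P.smul', abs_of_nonneg ha, abs_of_nonneg hb]
  have hOconv : Convex ℝ O := by
    intro z hz w hw a b ha hb hab
    have h1 := hconvq q x a b z w ha hb hab
    have hz' : q (z - x) < r := hz
    have hw' : q (w - x) < r := hw
    show q (a • z + b • w - x) < r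
    rcases eq_or_lt_of_le ha with h0 | h0
    · have : b = 1 := by linarith
      rw [← h0, this] at h1
      rw [← h0, this]
      linarith
    · nlinarith
  set B : Set c0 := {z | p z ≤ 1} with hB
  have hBconv : Convex ℝ B := by
    intro z hz w hw a b ha hb hab
    have h1 := hconvq p 0 a b z w ha hb hab
    rw [sub_zero, sub_zero, sub_zero] at h1
    have hz' : p z ≤ 1 := hz
    have hw' : p w ≤ 1 := hw
    show p (a • z + b • w) ≤ 1
    nlinarith
  have hdisj : Disjoint O B := by
    rw [Set.disjoint_left]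
    intro z hz hzB
    have h1 := hmin z hzB
    have h2 : q (z - x) < r := hz
    have e : q (x - z) = q (z - x) := by rw [← q.map_neg (x - z), neg_sub]
    rw [e] at h1
    linarith
  obtain ⟨F, s, hF1, hF2⟩ := geometric_hahn_banach_open hOconv hOopen hBconv hdisj
  have hFy : F y = s := by
    refine le_antisymm ?_ (hF2 y hy)
    have h1 : ∀ t : ℝ, 0 < t → t < 1 → F y + t * F (x - y) < s := by
      intro t ht0 ht1
      have h2 : y + t • (x - y) ∈ O := by
        show q (y + t • (x - y) - x) < r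
        have e : y + t • (x - y) - x = (t - 1) • (x - y) := by
          have h3 := sub_smul t 1 (x - y)
          rw [h3, one_smul]
          abel
        rw [e, q.smul', abs_of_neg (by linarith)]
        nlinarith
      have h3 := hF1 _ h2
      rw [map_add, map_smul, smul_eq_mul] at h3
      exact h3
    have h2 : Tendsto (fun n : ℕ => F y + (1 / ((n : ℝ) + 2)) * F (x - y)) atTop
        (𝓝 (F y + 0 * F (x - y))) := by
      refine Tendsto.const_add _ (Tendsto.mul_const _ ?_)
      have h3 : Tendsto (fun n : ℕ => ((n : ℝ) + 2)) atTop atTop :=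
        tendsto_atTop_add_const_right _ _ tendsto_natCast_atTop_atTop
      exact Tendsto.congr (fun n => (one_div _).symm) h3.inv_tendsto_atTop
    rw [zero_mul, add_zero] at h2
    refine le_of_tendsto' h2 fun n => ?_
    refine (h1 _ (by positivity) ?_).le
    rw [div_lt_one (by positivity)]
    have : (0 : ℝ) ≤ n := Nat.cast_nonneg n
    linarith
  obtain ⟨v, hv⟩ : ∃ v : c0, v = r⁻¹ • (y - x) := ⟨_, rfl⟩
  have hqv : q v = 1 := by
    have e : q (y - x) = r := by rw [hr, ← q.map_neg (x - y), neg_sub]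
    rw [hv, q.smul', abs_of_pos (inv_pos.mpr hr0), e, inv_mul_cancel₀ hr0.ne']
  -- F attains its maximum over the unit ball of q at v
  have hFv : ∀ w, q w ≤ 1 → F w ≤ F v := by
    intro w hw
    have h1 : ∀ t : ℝ, 0 < t → t < r → t * F w < F (y - x) := by
      intro t ht0 ht1
      have h2 : x + t • w ∈ O := by
        show q (x + t • w - x) < r
        have e : x + t • w - x = t • w := by abel
        rw [e, q.smul', abs_of_pos ht0]
        nlinarith
      have h3 := hF1 _ h2
      rw [map_add, map_smul, smul_eq_mul] at h3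
      rw [map_sub]
      linarith
    have h2 : r * F w ≤ F (y - x) := by
      by_contra hcon
      push Not at hcon
      rcases le_or_gt (F w) 0 with h0 | h0
      · have h3 := h1 (r / 2) (by linarith) (by linarith)
        have h4 := hF1 x (by show q (x - x) < r; rw [sub_self, q.map_zero]; exact hr0)
        have h5 : 0 < F (y - x) := by rw [map_sub]; linarith
        nlinarith
      · have h4 := hF1 x (by show q (x - x) < r; rw [sub_self, q.map_zero]; exact hr0)
        have h5 : 0 < F (y - x) := by rw [map_sub]; linarith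
        have h6 : F (y - x) / F w < r := by rw [div_lt_iff₀ h0]; exact hcon
        have h7 := h1 ((F (y - x) / F w + r) / 2)
          (by have : 0 < F (y - x) / F w := div_pos h5 h0
              linarith) (by linarith)
        have h8 : F (y - x) / F w * F w = F (y - x) := div_mul_cancel₀ _ h0.ne'
        nlinarith
    rw [hv, map_smul, smul_eq_mul, ← div_eq_inv_mul, le_div_iff₀ hr0]
    linarith
  have hFne : F ≠ 0 := by
    intro h0
    have h4 := hF1 x (by show q (x - x) < r; rw [sub_self, q.map_zero]; exact hr0)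
    rw [h0] at h4 hFy
    rw [_root_.zero_apply] at h4 hFy
    linarith
  -- the tail of f i v is small
  obtain ⟨n, hn⟩ : ∃ n : ℕ, ∀ i, n ≤ i → |f i v| ≤ 1 / 2 := by
    have h1 : Tendsto (fun i => |v i| + th (i + 1) * ‖v‖) atTop (𝓝 0) := by
      have h2 := (c0_tendsto v).abs
      rw [abs_zero] at h2
      have h3 := ((th_tendsto.comp (tendsto_add_atTop_nat 1)).mul_const ‖v‖)
      rw [zero_mul] at h3
      have h4 := h2.add h3
      rw [add_zero] at h4
      exact h4
    obtain ⟨n, hn⟩ := eventually_atTop.mp (h1.eventually (gt_mem_nhds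
      (show (0 : ℝ) < 1 / 2 by norm_num)))
    refine ⟨n, fun i hi => ?_⟩
    have h2 := hn i hi
    have h3 := hf1 i v
    have h4 : |f i v| ≤ |f i v - v i| + |v i| := by
      have := abs_add_le (f i v - v i) (v i)
      rwa [sub_add_cancel] at this
    linarith
  -- kernel inclusion
  have hker : ∀ w : c0, (∀ i < n, f i w = 0) → F w = 0 := by
    have key : ∀ w : c0, (∀ i < n, f i w = 0) → F w ≤ 0 := by
      intro w hw
      set t : ℝ := 1 / (2 * (q w + 1)) with ht
      have hqw := q.nonneg w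
      have ht0 : 0 < t := by positivity
      have htq : t * q w ≤ 1 / 2 := by
        rw [ht, div_mul_eq_mul_div, div_le_iff₀ (by positivity)]
        linarith
      have h1 : q (v + t • w) ≤ 1 := by
        rw [hq]
        refine ciSup_le fun i => ?_
        rw [hf_add, hf_smul]
        rcases lt_or_ge i n with hi | hi
        · rw [hw i hi, mul_zero, add_zero]
          exact (hqle v i).trans hqv.le
        · refine (abs_add_le _ _).trans ?_
          rw [abs_mul, abs_of_pos ht0]
          have h2 := hn i hi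
          have h3 : t * |f i w| ≤ t * q w := mul_le_mul_of_nonneg_left (hqle w i) ht0.le
          linarith
      have h2 := hFv _ h1
      rw [map_add, map_smul, smul_eq_mul] at h2
      by_contra hcon
      push Not at hcon
      nlinarith
    intro w hw
    refine le_antisymm (key w hw) ?_
    have h1 := key (-w) (fun i hi => by
      have : f i (-w) = - f i w := by
        simp only [hf]
        rw [_root_.map_neg, _root_.map_neg]
      rw [this, hw i hi, neg_zero])
    rw [_root_.map_neg] at h1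
    linarith
  -- F is a combination of the g i
  have hspan : ∃ b : Fin n → ℝ, ∀ w : c0, F w = ∑ i, b i * f i w := by
    have h1 : (F.toLinearMap : c0 →ₗ[ℝ] ℝ) ∈ Submodule.span ℝ (Set.range fun i : Fin n =>
        ((g i).toLinearMap.comp (toW p).toLinearMap : c0 →ₗ[ℝ] ℝ)) := by
      refine mem_span_of_iInf_ker_le_ker ?_
      intro w hw
      rw [Submodule.mem_iInf] at hw
      rw [LinearMap.mem_ker]
      refine hker w fun i hi => ?_
      have := hw ⟨i, hi⟩
      rw [LinearMap.mem_ker] at this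
      exact this
    rw [Submodule.mem_span_range_iff_exists_fun] at h1
    obtain ⟨b, hb⟩ := h1
    refine ⟨b, fun w => ?_⟩
    have h2 := congrArg (fun L : c0 →ₗ[ℝ] ℝ => L w) hb
    simp only [LinearMap.sum_apply, LinearMap.smul_apply, smul_eq_mul] at h2
    exact h2.symm
  obtain ⟨b, hb⟩ := hspan
  set sb : ℝ := ∑ i, |b i| with hsb
  have hsb0 : 0 < sb := by
    rcases lt_or_eq_of_le (Finset.sum_nonneg fun i _ => abs_nonneg (b i) : 0 ≤ sb) with h | h
    · exact h
    · exfalso
      apply hFne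
      ext w
      rw [hb w, _root_.zero_apply]
      have h2 : ∀ i ∈ Finset.univ, |b i| = 0 :=
        (Finset.sum_eq_zero_iff_of_nonneg fun i _ => abs_nonneg (b i)).mp h.symm
      refine Finset.sum_eq_zero fun i hi => ?_
      rw [abs_eq_zero.mp (h2 i hi), zero_mul]
  set cc : ℕ → ℝ := fun i => if hi : i < n then - b ⟨i, hi⟩ / sb else 0 with hcc
  have hcc0 : ∀ i, n ≤ i → cc i = 0 := fun i hi => by
    simp only [hcc]; rw [dif_neg (not_lt.mpr hi)]
  have hccb : ∀ i : Fin n, cc i = - b i / sb := fun i => by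
    simp only [hcc]; rw [dif_pos i.2]
  have hcc1 : ∑ i ∈ Finset.range n, |cc i| = 1 := by
    rw [Finset.sum_range (fun i => |cc i|)]
    have : ∀ i : Fin n, |cc i| = |b i| / sb := fun i => by
      rw [hccb, abs_div, abs_neg, abs_of_pos hsb0]
    simp_rw [this]
    rw [← Finset.sum_div, ← hsb, div_self hsb0.ne']
  have hstat := hg2 n cc hcc0 hcc1 (toW p y) (by rw [W_norm_toW]; exact hy)
  set H : StrongDual ℝ (W p) := ∑ i ∈ Finset.range n, cc i • g i with hH
  have hHF : ∀ w : c0, H (toW p w) = - F w / sb := by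
    intro w
    rw [hH, _root_.sum_apply, Finset.sum_range (fun i => (cc i • g i) (toW p w)), hb w,
      ← Finset.sum_neg_distrib, Finset.sum_div]
    refine Finset.sum_congr rfl fun i _ => ?_
    rw [_root_.smul_apply, smul_eq_mul, hccb]
    simp only [hf]
    ring
  have hmax : ∀ w : W p, ‖w‖ ≤ 1 → H w ≤ H (toW p y) := by
    intro w hw
    have h1 : H w = - F ((toW p).symm w) / sb := by
      have := hHF ((toW p).symm w)
      rwa [LinearEquiv.apply_symm_apply] at this
    rw [h1, hHF y]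
    refine div_le_div_of_nonneg_right ?_ hsb0.le
    have h2 := hF2 ((toW p).symm w) hw
    linarith
  have h0 : 0 ≤ H (toW p y) := by
    have := hmax 0 (by rw [norm_zero]; exact zero_le_one)
    rwa [_root_.map_zero] at this
  have hnorm : ‖H‖ ≤ H (toW p y) := by
    refine H.opNorm_le_bound h0 fun w => ?_
    rcases eq_or_ne w 0 with rfl | hw
    · simp
    · have hw' : 0 < ‖w‖ := norm_pos_iff.mpr hw
      have h1 : ‖(‖w‖⁻¹ • w : W p)‖ ≤ 1 := by
        rw [norm_smul, norm_inv, norm_norm, inv_mul_cancel₀ hw'.ne']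
      have h2 := hmax _ h1
      have h3 := hmax (-(‖w‖⁻¹ • w)) (by rw [norm_neg]; exact h1)
      rw [map_smul, smul_eq_mul, inv_mul_le_iff₀ hw', mul_comm] at h2
      rw [_root_.map_neg, map_smul, smul_eq_mul, ← mul_neg, inv_mul_le_iff₀ hw', mul_comm] at h3
      rw [Real.norm_eq_abs, abs_le]
      constructor <;> linarith
  linarith

end generic

/-- For the Banach space `c₀` the equivalent norms admitting a companion norm form a residual
set; in particular this set is not of first category. -/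
theorem result :
    (Companionable C₀(ℕ, ℝ) ∈ residual (EqNorm C₀(ℕ, ℝ))) ∧
    ¬ ∀ (X : Type) [NormedAddCommGroup X] [NormedSpace ℝ X] [CompleteSpace X],
        IsMeagre (Companionable X) := by
  have hres : Companionable C₀(ℕ, ℝ) ∈ residual (EqNorm C₀(ℕ, ℝ)) := by
    have h1 : (⋂ n : ℕ, interior {p : EqNorm C₀(ℕ, ℝ) | FlatAt (1 / ((n : ℝ) + 1)) p}) ∈
        residual (EqNorm C₀(ℕ, ℝ)) := by
      rw [countable_iInter_mem]
      intro n
      exact residual_of_dense_open isOpen_interior (dense_interior_flat _ (by positivity))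
    refine mem_of_superset h1 fun p hp => ?_
    rw [Set.mem_iInter] at hp
    refine companion_of_flat p fun κ hκ => ?_
    obtain ⟨n, hn⟩ := exists_nat_one_div_lt hκ
    obtain ⟨δ, hδ, h2⟩ := interior_subset (hp n)
    refine ⟨δ, hδ, fun x hx => ?_⟩
    obtain ⟨m, hm⟩ := h2 x hx
    refine ⟨m, fun u hu hu0 => (hm u hu hu0).trans ?_⟩
    have : 1 / ((n : ℝ) + 1) * δ ≤ κ * δ := mul_le_mul_of_nonneg_right hn.le hδ.le
    linarith
  refine ⟨hres, fun hall => ?_⟩
  have hne : Nonempty (EqNorm C₀(ℕ, ℝ)) :=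
    ⟨⟨fun x => ‖x‖, norm_add_le, fun a x => by rw [norm_smul, Real.norm_eq_abs],
      1, 1, one_pos, fun x => ⟨by rw [one_mul], by rw [one_mul]⟩⟩⟩
  exact not_isMeagre_of_mem_residual hres (hall C₀(ℕ, ℝ))

end Pool.Agent.Results.MP_19858b_an.GenericCompanion
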